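import Pool.Agent.Q255.L2.StmN

set_option autoImplicit false
set_option maxHeartbeats 4000000

/-!
# Project L2N: moments over all intervals for almost all quadratic symbols
-/

namespace Pool.Agent.Q214.L2

open Filter Topology MeasureTheory Finset
open Pool.Agent.Q255.IC Pool.Agent.Q255.IR Pool.Agent.Q255.EP Pool.Agent.Q255.L2

/-- the net points -/
noncomputable def pt (L J i : ℕ) : ℝ := -(2 : ℝ) ^ J + (i : ℝ) / 2 ^ (L * J)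

/-- the net -/
theorem exists_pt {L J : ℕ} {T : ℝ} (h1 : -(2 : ℝ) ^ J ≤ T) (h2 : T ≤ 2 ^ J) :
    ∃ i : ℕ, i ∈ range (2 ^ ((L + 1) * J + 1) + 1) ∧ pt L J i ≤ T ∧ T ≤ pt L J i + 1 / 2 ^ (L * J) ∧
      i = ⌊(T + 2 ^ J) * 2 ^ (L * J)⌋₊ := by
  have hD : (0 : ℝ) < 2 ^ (L * J) := by positivity
  have hn : 0 ≤ (T + 2 ^ J) * 2 ^ (L * J) := mul_nonneg (by linarith) hD.le
  refine ⟨⌊(T + 2 ^ J) * 2 ^ (L * J)⌋₊, ?_, ?_, ?_, rfl⟩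
  · rw [mem_range, Nat.lt_succ_iff]
    have h3 : ((⌊(T + 2 ^ J) * 2 ^ (L * J)⌋₊ : ℕ) : ℝ) ≤ ((2 ^ ((L + 1) * J + 1) : ℕ) : ℝ) := by
      refine (Nat.floor_le hn).trans ?_
      push_cast
      calc (T + 2 ^ J) * 2 ^ (L * J) ≤ (2 * 2 ^ J) * 2 ^ (L * J) := mul_le_mul_of_nonneg_right (by linarith) hD.le
        _ = 2 ^ ((L + 1) * J + 1) := by ring
    exact_mod_cast h3
  · unfold pt
    have := (div_le_iff₀ hD).2 (Nat.floor_le hn)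
    linarith
  · unfold pt
    have h3 := (Nat.lt_floor_add_one ((T + 2 ^ J) * 2 ^ (L * J))).le
    rw [← le_div_iff₀ hD, add_div] at h3
    linarith

theorem pt_mono {L J i j : ℕ} (h : i ≤ j) : pt L J i ≤ pt L J j := by
  unfold pt
  have h1 : (i : ℝ) ≤ j := by exact_mod_cast h
  have h2 : (i : ℝ) / 2 ^ (L * J) ≤ (j : ℝ) / 2 ^ (L * J) := div_le_div_of_nonneg_right h1 (by positivity)
  linarith

/-- symbols of rough moduli -/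
theorem jc_pm {J m N n : ℕ} (hm : Rgh J m) (hN : N ≤ 2 ^ J) (hn : ∀ p : ℕ, p.Prime → p ∣ n → p ≤ N) :
    jc m n = 1 ∨ jc m n = -1 := by
  have hc : Nat.Coprime n m := by
    by_contra hc
    obtain ⟨p, hp, h1, h2⟩ := Nat.Prime.not_coprime_iff_dvd.1 hc
    have h3 := hn p hp h1
    have h4 := hm p hp h2
    omega
  have h5 : ((n : ℤ)).gcd m = 1 := by
    rw [Int.gcd_natCast_natCast]
    exact hc
  unfold jc
  rcases jacobiSym.eq_one_or_neg_one h5 with h | h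
  · left; rw [h]; norm_num
  · right; rw [h]; norm_num

theorem jc_mul (m a b : ℕ) : jc m (a * b) = jc m a * jc m b := by
  unfold jc
  rw [Nat.cast_mul, jacobiSym.mul_left]
  push_cast
  rfl

theorem jc_abs (m n : ℕ) : |jc m n| ≤ 1 := by
  unfold jc
  rcases jacobiSym.trichotomy (n : ℤ) m with h | h | h <;> rw [h] <;> norm_num

open Classical in
/-- the functions of the scale `J` -/
noncomputable def VV (k L J : ℕ) : Finset (ℕ → ℝ) :=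
  Finset.image (fun q : ℕ × ℕ × ℕ => wm k q.1 (pt L J q.2.1) (pt L J q.2.2))
    (range (2 ^ J + 1) ×ˢ (range (2 ^ ((L + 1) * J + 1) + 1) ×ˢ range (2 ^ ((L + 1) * J + 1) + 1)))

theorem VV_card (k L J : ℕ) : ((VV k L J).card : ℝ) ≤ Real.exp ((2 * L + 21) * ((J : ℝ) + 1)) := by
  have h1 : (VV k L J).card ≤ (2 ^ J + 1) * ((2 ^ ((L + 1) * J + 1) + 1) * (2 ^ ((L + 1) * J + 1) + 1)) := by
    classical
    unfold VV
    refine Finset.card_image_le.trans (le_of_eq ?_)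
    rw [card_product, card_product, card_range, card_range]
  have h2 : ((VV k L J).card : ℝ) ≤ (2 ^ J + 1) * ((2 ^ ((L + 1) * J + 1) + 1) * (2 ^ ((L + 1) * J + 1) + 1)) := by
    exact_mod_cast h1
  have h3 : (1 : ℝ) ≤ 2 ^ J := one_le_pow₀ (by norm_num)
  have h4 : (1 : ℝ) ≤ 2 ^ ((L + 1) * J) := one_le_pow₀ (by norm_num)
  have h5 : (2 : ℝ) ^ ((L + 1) * J + 1) + 1 ≤ 3 * 2 ^ ((L + 1) * J) := by
    rw [pow_succ]
    linarith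
  have h6 : (2 : ℝ) ≤ Real.exp 1 := by
    have := Real.add_one_le_exp (1 : ℝ)
    linarith
  have h7 : (18 : ℝ) ≤ Real.exp 18 := by
    have := Real.add_one_le_exp (18 : ℝ)
    linarith
  calc ((VV k L J).card : ℝ) ≤ (2 ^ J + 1) * ((2 ^ ((L + 1) * J + 1) + 1) * (2 ^ ((L + 1) * J + 1) + 1)) := h2
    _ ≤ (2 * 2 ^ J) * ((3 * 2 ^ ((L + 1) * J)) * (3 * 2 ^ ((L + 1) * J))) := by gcongr; linarith
    _ = 18 * 2 ^ ((2 * L + 3) * J) := by ring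
    _ ≤ Real.exp 18 * Real.exp 1 ^ ((2 * L + 3) * J) := by gcongr
    _ = Real.exp (18 + ((2 * L + 3) * J : ℕ)) := by rw [Real.exp_add, Real.exp_one_pow]
    _ ≤ _ := by
        refine Real.exp_le_exp.2 ?_
        push_cast
        have hL : (0 : ℝ) ≤ L := Nat.cast_nonneg L
        have hJ : (0 : ℝ) ≤ J := Nat.cast_nonneg J
        nlinarith [mul_nonneg hL hJ]

/-- the linear form at one modulus -/
theorem lin_bd {k : ℕ} (hk : 1 ≤ k) {ε C₂ : ℝ} (hε : 0 < ε) (hC₂ : 0 ≤ C₂)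
    (hW : ∀ (N : ℕ) (T₁ T₂ : ℝ), 1 ≤ N → T₁ ≤ T₂ →
      (∀ X, nn X (wm k N T₁ T₂) ≤ C₂ * ((N : ℝ) * (1 + (T₂ - T₁))) ^ ε * (1 + (T₂ - T₁))) ∧
      (∀ l, N ^ (2 * k) < l → wm k N T₁ T₂ l = 0) ∧
      ∀ (T₁' T₂' : ℝ) (l : ℕ), T₁' ≤ T₂' →
        |wm k N T₁ T₂ l - wm k N T₁' T₂' l| ≤ C₂ * (N : ℝ) ^ (8 * k) * (|T₁ - T₁'| + |T₂ - T₂'|))
    {J : ℕ} {f : ℕ → ℝ} (hf : ∀ n, |f n| ≤ 1) {ε₁ : ℝ}
    (hV : ∀ w ∈ VV k (10 * k) J, |∑ n ∈ Icc 1 (2 ^ (2 * k * J)), w n * f n| ≤ (2 : ℝ) ^ (ε₁ * ((2 * k * J : ℕ) : ℝ)) * √(nn (2 ^ (2 * k * J)) w))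
    {N : ℕ} {T₁ T₂ : ℝ} (hN : 1 ≤ N) (hNJ : N ≤ 2 ^ J) (h1 : -(2 : ℝ) ^ J ≤ T₁) (h12 : T₁ ≤ T₂) (h2 : T₂ ≤ 2 ^ J) :
    |∑ l ∈ Icc 1 (N ^ (2 * k)), wm k N T₁ T₂ l * f l| ≤
      (2 : ℝ) ^ (ε₁ * ((2 * k * J : ℕ) : ℝ)) * (√(2 * C₂ * 4 ^ ε) * (2 : ℝ) ^ (ε * J) * √(1 + (T₂ - T₁))) + 2 * C₂ := by
  obtain ⟨i, hi, hi1, hi2, hie⟩ := exists_pt (L := 10 * k) (J := J) h1 (h12.trans h2)
  obtain ⟨j, hj, hj1, hj2, hje⟩ := exists_pt (L := 10 * k) (J := J) (h1.trans h12) h2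
  have hij : i ≤ j := by
    rw [hie, hje]
    refine Nat.floor_le_floor (mul_le_mul_of_nonneg_right (by linarith) (by positivity))
  set T₁' := pt (10 * k) J i with hT1
  set T₂' := pt (10 * k) J j with hT2
  have hT' : T₁' ≤ T₂' := pt_mono hij
  obtain ⟨hW1, hW2, hW3⟩ := hW N T₁ T₂ hN h12
  obtain ⟨hV1, hV2, -⟩ := hW N T₁' T₂' hN hT'
  have hNk : N ^ (2 * k) ≤ 2 ^ (2 * k * J) := by
    calc N ^ (2 * k) ≤ (2 ^ J) ^ (2 * k) := Nat.pow_le_pow_left hNJ _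
      _ = 2 ^ (2 * k * J) := by rw [← pow_mul, mul_comm]
  -- the sum over the whole scale
  have e1 : ∑ l ∈ Icc 1 (N ^ (2 * k)), wm k N T₁ T₂ l * f l = ∑ l ∈ Icc 1 (2 ^ (2 * k * J)), wm k N T₁ T₂ l * f l := by
    refine sum_subset (Icc_subset_Icc_right hNk) fun l _ hl' => ?_
    rw [hW2 l ?_, zero_mul]
    rw [mem_Icc, not_and, not_le] at hl'
    rename_i hl
    exact hl' (mem_Icc.1 hl).1
  rw [e1]
  have hmem : wm k N T₁' T₂' ∈ VV k (10 * k) J := by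
    classical
    unfold VV
    refine Finset.mem_image.2 ⟨(N, i, j), ?_, rfl⟩
    rw [mem_product, mem_product]
    exact ⟨mem_range.2 (Nat.lt_succ_of_le hNJ), hi, hj⟩
  have h3 := hV _ hmem
  have hD1 : (1 : ℝ) ≤ 2 ^ (10 * k * J) := one_le_pow₀ (by norm_num)
  have hD : 1 / (2 : ℝ) ^ (10 * k * J) ≤ 1 := by
    rw [div_le_one (by positivity)]
    exact hD1
  have h2J : (1 : ℝ) ≤ 2 ^ J := one_le_pow₀ (by norm_num)
  have hNR : (1 : ℝ) ≤ N := by exact_mod_cast hN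
  have hNJR : (N : ℝ) ≤ 2 ^ J := by exact_mod_cast hNJ
  -- the norm
  have h4 : 1 + (T₂' - T₁') ≤ 2 * (1 + (T₂ - T₁)) := by linarith
  have h4' : 1 + (T₂' - T₁') ≤ 4 * 2 ^ J := by linarith
  have h40 : 0 ≤ 1 + (T₂' - T₁') := by linarith
  have h5 : nn (2 ^ (2 * k * J)) (wm k N T₁' T₂') ≤ (√(2 * C₂ * 4 ^ ε) * (2 : ℝ) ^ (ε * J) * √(1 + (T₂ - T₁))) ^ 2 := by
    refine (hV1 _).trans ?_
    have e2 : (√(2 * C₂ * 4 ^ ε) * (2 : ℝ) ^ (ε * J) * √(1 + (T₂ - T₁))) ^ 2 =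
        C₂ * (4 * (2 ^ J * 2 ^ J)) ^ ε * (2 * (1 + (T₂ - T₁))) := by
      rw [mul_pow, mul_pow, Real.sq_sqrt (by positivity), Real.sq_sqrt (by linarith)]
      have e3 : ((4 : ℝ) * (2 ^ J * 2 ^ J)) ^ ε = 4 ^ ε * ((2 : ℝ) ^ (ε * J)) ^ 2 := by
        rw [Real.mul_rpow (by norm_num) (by positivity)]
        congr 1
        rw [Real.mul_rpow (by positivity) (by positivity), ← Real.rpow_natCast, ← Real.rpow_mul (by norm_num), sq]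
        rw [mul_comm (J : ℝ) ε]
      rw [e3]
      ring
    rw [e2]
    have h6 : ((N : ℝ) * (1 + (T₂' - T₁'))) ^ ε ≤ (4 * (2 ^ J * 2 ^ J)) ^ ε := by
      refine Real.rpow_le_rpow (by positivity) ?_ hε.le
      calc (N : ℝ) * (1 + (T₂' - T₁')) ≤ 2 ^ J * (4 * 2 ^ J) := mul_le_mul hNJR h4' h40 (by positivity)
        _ = _ := by ring
    refine mul_le_mul (mul_le_mul_of_nonneg_left h6 hC₂) h4 h40 (by positivity)
  have h6 : √(nn (2 ^ (2 * k * J)) (wm k N T₁' T₂')) ≤ √(2 * C₂ * 4 ^ ε) * (2 : ℝ) ^ (ε * J) * √(1 + (T₂ - T₁)) := by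
    rw [Real.sqrt_le_left (by positivity)]
    exact h5
  have h7 : |∑ n ∈ Icc 1 (2 ^ (2 * k * J)), wm k N T₁' T₂' n * f n| ≤
      (2 : ℝ) ^ (ε₁ * ((2 * k * J : ℕ) : ℝ)) * (√(2 * C₂ * 4 ^ ε) * (2 : ℝ) ^ (ε * J) * √(1 + (T₂ - T₁))) :=
    h3.trans (mul_le_mul_of_nonneg_left h6 (by positivity))
  -- the difference
  have h8 : |∑ l ∈ Icc 1 (2 ^ (2 * k * J)), wm k N T₁ T₂ l * f l - ∑ l ∈ Icc 1 (2 ^ (2 * k * J)), wm k N T₁' T₂' l * f l| ≤ 2 * C₂ := by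
    rw [← sum_sub_distrib]
    have h9 : ∀ l ∈ Icc 1 (2 ^ (2 * k * J)), |wm k N T₁ T₂ l * f l - wm k N T₁' T₂' l * f l| ≤ 2 * C₂ / 2 ^ (2 * k * J) := by
      intro l _
      rw [← sub_mul, abs_mul]
      refine (mul_le_of_le_one_right (abs_nonneg _) (hf _)).trans ?_
      refine (hW3 T₁' T₂' l hT').trans ?_
      have a1 : |T₁ - T₁'| ≤ 1 / 2 ^ (10 * k * J) := by rw [abs_le]; constructor <;> linarith [show (0:ℝ) < 1 / 2 ^ (10 * k * J) by positivity]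
      have a2 : |T₂ - T₂'| ≤ 1 / 2 ^ (10 * k * J) := by rw [abs_le]; constructor <;> linarith [show (0:ℝ) < 1 / 2 ^ (10 * k * J) by positivity]
      have a3 : (N : ℝ) ^ (8 * k) ≤ (2 ^ J) ^ (8 * k) := pow_le_pow_left₀ (by linarith) hNJR _
      calc C₂ * (N : ℝ) ^ (8 * k) * (|T₁ - T₁'| + |T₂ - T₂'|) ≤ C₂ * (2 ^ J) ^ (8 * k) * (1 / 2 ^ (10 * k * J) + 1 / 2 ^ (10 * k * J)) := by
            refine mul_le_mul (mul_le_mul_of_nonneg_left a3 hC₂) (add_le_add a1 a2) (by positivity) (by positivity)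
        _ = 2 * C₂ / 2 ^ (2 * k * J) := by
            have e4 : (2 : ℝ) ^ (10 * k * J) = (2 ^ J) ^ (8 * k) * 2 ^ (2 * k * J) := by
              rw [← pow_mul, ← pow_add]
              congr 1
              ring
            rw [e4]
            field_simp
            ring
    refine (abs_sum_le_sum_abs _ _).trans ((sum_le_sum h9).trans (le_of_eq ?_))
    rw [sum_const, Nat.card_Icc, nsmul_eq_mul, Nat.add_sub_cancel]
    push_cast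
    field_simp
  have h9 := abs_sub_abs_le_abs_sub (∑ l ∈ Icc 1 (2 ^ (2 * k * J)), wm k N T₁ T₂ l * f l) (∑ l ∈ Icc 1 (2 ^ (2 * k * J)), wm k N T₁' T₂' l * f l)
  linarith

/-- **S_MQ** -/
theorem mq (h : S_QE) (h1 : S_ME) (h2 : S_MW) : S_MQ := by
  classical
  intro k ε hk hε
  obtain ⟨C₁, hC₁, hE⟩ := h1 k ε hk hε
  obtain ⟨C₂, hC₂, hW⟩ := h2 k (ε / 2) hk (by positivity)
  have hk0 : (0 : ℝ) < k := by exact_mod_cast hk
  refine ⟨C₁ + 2 * C₂ + √(2 * C₂ * 4 ^ (ε / 2)), ?_⟩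
  have hQ := h (2 * (10 * k : ℕ) + 21) (ε / (4 * k)) (fun J => VV k (10 * k) (J / (2 * k))) (by positivity) (by
    intro J
    refine (VV_card k (10 * k) (J / (2 * k))).trans (Real.exp_le_exp.2 ?_)
    have h3 : ((J / (2 * k) : ℕ) : ℝ) ≤ J := by exact_mod_cast Nat.div_le_self _ _
    have h4 : (0 : ℝ) ≤ 2 * (10 * k : ℕ) + 21 := by positivity
    exact mul_le_mul_of_nonneg_left (by linarith) h4)
  have hQ2 := Alm.scale hQ (k := 2 * k) (by omega) 0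
  refine hQ2.mono fun J m hJm hR N T₁ T₂ hN hNJ hT1 hT12 hT2 => ?_
  rw [Nat.add_zero, Nat.mul_div_cancel_left _ (by omega : 0 < 2 * k)] at hJm
  have h3 := lin_bd hk (by positivity) hC₂ hW (jc_abs m) hJm hN hNJ hT1 hT12 hT2
  have h4 := hE N T₁ T₂ (jc m) hN hT12 (fun a b _ _ _ => jc_mul m a b) (fun n hn _ => jc_pm hR hNJ hn)
  have hsq : 1 ≤ √(1 + (T₂ - T₁)) := by
    rw [Real.one_le_sqrt]
    linarith
  have h2J : (1 : ℝ) ≤ 2 ^ J := one_le_pow₀ (by norm_num)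
  have h5 : (N : ℝ) ^ ε ≤ (2 : ℝ) ^ (ε * J) := by
    have hNJR : (N : ℝ) ≤ 2 ^ J := by exact_mod_cast hNJ
    calc (N : ℝ) ^ ε ≤ ((2 : ℝ) ^ J) ^ ε := Real.rpow_le_rpow (Nat.cast_nonneg _) hNJR hε.le
      _ = (2 : ℝ) ^ (ε * J) := by
          rw [← Real.rpow_natCast, ← Real.rpow_mul (by norm_num), mul_comm]
  have h6 : (1 : ℝ) ≤ (2 : ℝ) ^ (ε * J) := Real.one_le_rpow (by norm_num) (by positivity)
  have e1 : (2 : ℝ) ^ (ε / (4 * k) * ((2 * k * J : ℕ) : ℝ)) * (√(2 * C₂ * 4 ^ (ε / 2)) * (2 : ℝ) ^ (ε / 2 * J) * √(1 + (T₂ - T₁))) =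
      √(2 * C₂ * 4 ^ (ε / 2)) * (2 : ℝ) ^ (ε * J) * √(1 + (T₂ - T₁)) := by
    have e2 : (2 : ℝ) ^ (ε * J) = (2 : ℝ) ^ (ε / (4 * k) * ((2 * k * J : ℕ) : ℝ)) * (2 : ℝ) ^ (ε / 2 * J) := by
      rw [← Real.rpow_add (by norm_num)]
      congr 1
      push_cast
      field_simp
      ring
    rw [e2]
    ring
  rw [e1] at h3
  have h7 : C₁ * (N : ℝ) ^ ε ≤ C₁ * (2 : ℝ) ^ (ε * J) * √(1 + (T₂ - T₁)) := by
    calc C₁ * (N : ℝ) ^ ε ≤ C₁ * (2 : ℝ) ^ (ε * J) * 1 := by rw [mul_one]; exact mul_le_mul_of_nonneg_left h5 hC₁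
      _ ≤ _ := mul_le_mul_of_nonneg_left hsq (by positivity)
  have h8 : 2 * C₂ ≤ 2 * C₂ * (2 : ℝ) ^ (ε * J) * √(1 + (T₂ - T₁)) := by
    calc 2 * C₂ = 2 * C₂ * 1 * 1 := by ring
      _ ≤ _ := by gcongr
  have h9 := abs_sub_abs_le_abs_sub ((∫ t in T₁..T₂, ‖ZN (jc m) N t‖ ^ (2 * k)) - (T₂ - T₁) * dia k N) (∑ l ∈ Icc 1 (N ^ (2 * k)), wm k N T₁ T₂ l * jc m l)
  rw [sub_sub] at h9
  have e3 : (C₁ + 2 * C₂ + √(2 * C₂ * 4 ^ (ε / 2))) * (2 : ℝ) ^ (ε * J) * √(1 + (T₂ - T₁)) =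
      C₁ * (2 : ℝ) ^ (ε * J) * √(1 + (T₂ - T₁)) + 2 * C₂ * (2 : ℝ) ^ (ε * J) * √(1 + (T₂ - T₁)) +
        √(2 * C₂ * 4 ^ (ε / 2)) * (2 : ℝ) ^ (ε * J) * √(1 + (T₂ - T₁)) := by ring
  rw [e3]
  linarith

end Pool.Agent.Q214.L2
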